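import Pool.Agent.X201.AT.Phi

/-!
Groups given by the braid relations of a Coxeter matrix and the relations `s ^ c = 1`: Artin groups
(`c = 0`) and Coxeter groups (`c = 2`).
-/

set_option autoImplicit false

namespace Pool.Agent.X201.SH

open Pool.Agent.Helper741 Pool.Agent.X201.AT

/-- the relations -/
def rels {B : Type} (M : CoxeterMatrix B) (c : ℕ) : Set (FreeGroup B) :=
  {r | (∃ i j, r = alt (FreeGroup.of i) (FreeGroup.of j) (M i j) *
    (alt (FreeGroup.of j) (FreeGroup.of i) (M i j))⁻¹) ∨ ∃ i, r = FreeGroup.of i ^ c}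

/-- the group with the braid relations and `s ^ c = 1` -/
abbrev Sh {B : Type} (M : CoxeterMatrix B) (c : ℕ) : Type := PresentedGroup (rels M c)

variable {B : Type} (M : CoxeterMatrix B) (c : ℕ)

/-- the generators -/
def gen (i : B) : Sh M c := PresentedGroup.of i

variable {M c}

theorem rel (i j : B) : alt (gen M c i) (gen M c j) (M i j) = alt (gen M c j) (gen M c i) (M i j) := by
  have h : PresentedGroup.mk (rels M c) (alt (FreeGroup.of i) (FreeGroup.of j) (M i j) *
          (alt (FreeGroup.of j) (FreeGroup.of i) (M i j))⁻¹) = 1 := by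
    apply PresentedGroup.one_of_mem
    exact Or.inl ⟨i, j, rfl⟩
  rw [map_mul, map_inv, mul_inv_eq_one, map_alt, map_alt] at h
  exact h

theorem gen_pow (i : B) : gen M c i ^ c = 1 := by
  have h : PresentedGroup.mk (rels M c) (FreeGroup.of i ^ c) = 1 := by
    apply PresentedGroup.one_of_mem
    exact Or.inr ⟨i, rfl⟩
  rw [map_pow] at h
  exact h

/-- the universal property -/
def lift {G : Type*} [Group G] (f : B → G)
    (hf : ∀ i j, alt (f i) (f j) (M i j) = alt (f j) (f i) (M i j)) (hc : ∀ i, f i ^ c = 1) :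
    Sh M c →* G :=
  PresentedGroup.toGroup (f := f) (by
    rintro _ (⟨i, j, rfl⟩ | ⟨i, rfl⟩)
    · rw [map_mul, map_inv, map_alt, map_alt, FreeGroup.lift_apply_of, FreeGroup.lift_apply_of, hf i j,
        mul_inv_cancel]
    · rw [map_pow, FreeGroup.lift_apply_of, hc])

theorem lift_gen {G : Type*} [Group G] (f : B → G)
    (hf : ∀ i j, alt (f i) (f j) (M i j) = alt (f j) (f i) (M i j)) (hc : ∀ i, f i ^ c = 1) (i : B) :
    lift f hf hc (gen M c i) = f i := by
  simp [lift, gen]

theorem hom_ext {G : Type*} [Group G] {f g : Sh M c →* G}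
    (h : ∀ i, f (gen M c i) = g (gen M c i)) : f = g := by
  apply PresentedGroup.ext
  exact h

theorem closure_range_gen : Subgroup.closure (Set.range (gen M c)) = ⊤ :=
  PresentedGroup.closure_range_of _

theorem induction {p : Sh M c → Prop} (one : p 1) (gen : ∀ i, p (gen M c i))
    (mul : ∀ x y, p x → p y → p (x * y)) (inv : ∀ x, p x → p x⁻¹) (x : Sh M c) : p x := by
  have hx : x ∈ Subgroup.closure (Set.range (SH.gen M c)) := by
    rw [closure_range_gen]; trivial
  induction hx using Subgroup.closure_induction with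
  | mem x hx => obtain ⟨i, rfl⟩ := hx; exact gen i
  | one => exact one
  | mul x y _ _ hx hy => exact mul x y hx hy
  | inv x _ hx => exact inv x hx

end Pool.Agent.X201.SH
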