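import Pool.Agent.X201.AT.Phi

/-!
Extension of a partial automorphism of a Coxeter matrix to an automorphism of a finite Coxeter matrix.
-/

set_option autoImplicit false

namespace Pool.Agent.X201.SH

open Pool.Agent.X201.AT

section eppa

variable {B : Type} (M : CoxeterMatrix B) (q : Equiv.Perm B) (T : Set B)

/-- points with a finite orbit -/
def Pr (x : B) : Prop := ∃ k : ℤ, k ≠ 0 ∧ (q ^ k) x = x

/-- two points in a common translate of `T` -/
def Wit (x y : B) : Prop := ∃ k : ℤ, (q ^ k) x ∈ T ∧ (q ^ k) y ∈ T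

variable {q T}

theorem zpow_shift (k l : ℤ) (x : B) : (q ^ k) ((q ^ l) x) = (q ^ (k + l)) x := by
  rw [zpow_add, Equiv.Perm.mul_apply]

theorem Pr.shift {x : B} (h : Pr q x) (l : ℤ) : Pr q ((q ^ l) x) := by
  obtain ⟨k, hk, h1⟩ := h
  refine ⟨k, hk, ?_⟩
  rw [zpow_shift, add_comm, ← zpow_shift, h1]

theorem inj_of_not_pr {x : B} (h : ¬ Pr q x) {k l : ℤ} (hkl : (q ^ k) x = (q ^ l) x) : k = l := by
  by_contra hne
  apply h
  refine ⟨-l + k, by omega, ?_⟩
  rw [← zpow_shift, hkl, zpow_shift]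
  simp

theorem exists_bound (hT : T.Finite) : ∃ D : ℤ, 0 ≤ D ∧ ∀ x, ¬ Pr q x → ∀ k l : ℤ, (q ^ k) x ∈ T →
    (q ^ l) x ∈ T → |k - l| ≤ D := by
  let P : Set ℤ := ⋃ t ∈ {t ∈ T | ¬ Pr q t}, (fun d : ℤ => (q ^ d) t) ⁻¹' T
  have hP : P.Finite := by
    refine Set.Finite.biUnion (hT.subset (Set.sep_subset _ _)) ?_
    rintro t ⟨_, ht⟩
    exact hT.preimage fun a _ b _ hab => inj_of_not_pr ht hab
  obtain ⟨D, hD⟩ := (hP.image fun d => |d|).bddAbove
  refine ⟨max D 0, le_max_right _ _, fun x hx k l hk hl => le_trans ?_ (le_max_left _ _)⟩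
  apply hD
  refine ⟨k - l, ?_, rfl⟩
  rw [Set.mem_iUnion₂]
  refine ⟨(q ^ l) x, ⟨hl, fun h => hx ?_⟩, ?_⟩
  · have h1 := h.shift (-l)
    rw [zpow_shift] at h1
    simpa using h1
  · show (q ^ (k - l)) ((q ^ l) x) ∈ T
    rw [zpow_shift]
    simpa using hk

theorem exists_period (hT : T.Finite) : ∃ N : ℤ, 0 < N ∧ ∀ t ∈ T, Pr q t → (q ^ N) t = t := by
  classical
  induction T, hT using Set.Finite.induction_on with
  | empty => exact ⟨1, one_pos, fun t ht => absurd ht (Set.notMem_empty t)⟩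
  | @insert a S _ _ ih =>
    obtain ⟨N, hN, h⟩ := ih
    by_cases ha : Pr q a
    · obtain ⟨k, hk, h1⟩ := ha
      refine ⟨N * |k|, mul_pos hN (abs_pos.2 hk), ?_⟩
      have key : ∀ (t : B) (m : ℤ), (q ^ m) t = t → ∀ l : ℤ, (q ^ (m * l)) t = t := by
        intro t m hm l
        rw [zpow_mul]
        exact Equiv.Perm.zpow_apply_eq_self_of_apply_eq_self hm l
      rintro t (rfl | ht) hpt
      · rcases abs_choice k with h2 | h2
        · rw [h2, mul_comm]
          exact key t k h1 N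
        · rw [h2, mul_neg, ← neg_mul, mul_comm, ]
          exact key t k h1 (-N)
      · exact key t N (h t ht hpt) _
    · refine ⟨N, hN, ?_⟩
      rintro t (rfl | ht) hpt
      · exact absurd hpt ha
      · exact h t ht hpt

variable (q T)

/-- the translates of `T` -/
def B1 : Type := {x : B // ∃ k : ℤ, (q ^ k) x ∈ T}

variable (n : ℤ)

/-- the orbits of `q ^ n` -/
def orb : Setoid (B1 q T) where
  r x y := ∃ a : ℤ, (q ^ (n * a)) x.1 = y.1
  iseqv := by
    refine ⟨fun x => ⟨0, by simp⟩, ?_, ?_⟩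
    · rintro x y ⟨a, h⟩
      refine ⟨-a, ?_⟩
      rw [← h, zpow_shift]
      simp
    · rintro x y z ⟨a, h⟩ ⟨b, h'⟩
      refine ⟨b + a, ?_⟩
      rw [← h', ← h, zpow_shift]
      congr 2
      ring

/-- the finite set -/
def BB : Type := Quotient (orb q T n)

variable {q T n}

/-- the class of a point -/
def mk (x : B1 q T) : BB q T n := Quotient.mk (orb q T n) x

theorem mk_surj (a : BB q T n) : ∃ x, mk x = a := Quotient.exists_rep a

theorem mk_eq {x y : B1 q T} : (mk x : BB q T n) = mk y ↔ ∃ a : ℤ, (q ^ (n * a)) x.1 = y.1 :=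
  Quotient.eq

theorem finite_BB (hT : T.Finite) (hn : 0 < n) : Finite (BB q T n) := by
  have : Finite T := hT.to_subtype
  let f : Set.Ico (0 : ℤ) n × T → BB q T n := fun p =>
    mk ⟨(q ^ (p.1 : ℤ)) (p.2 : B), -(p.1 : ℤ), by rw [zpow_shift]; simp⟩
  refine Finite.of_surjective f fun a => ?_
  obtain ⟨⟨x, k, hk⟩, rfl⟩ := mk_surj a
  refine ⟨(⟨(-k) % n, Int.emod_nonneg _ hn.ne', Int.emod_lt_of_pos _ hn⟩, ⟨(q ^ k) x, hk⟩), ?_⟩
  refine mk_eq.2 ⟨(-k) / n, ?_⟩
  show (q ^ (n * (-k / n))) ((q ^ ((-k) % n)) ((q ^ k) x)) = x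
  rw [zpow_shift, zpow_shift]
  have h1 : n * (-k / n) + (-k) % n + k = 0 := by
    have := Int.mul_ediv_add_emod (-k) n
    omega
  rw [h1, zpow_zero, Equiv.Perm.one_apply]

variable {D : ℤ} (hM : ∀ i j, M (q i) (q j) = M i j)
  (hD : ∀ x, ¬ Pr q x → ∀ k l : ℤ, (q ^ k) x ∈ T → (q ^ l) x ∈ T → |k - l| ≤ D)
  (hnD : 3 * D < n) (hD0 : 0 ≤ D) (hper : ∀ t ∈ T, Pr q t → (q ^ n) t = t)

include hM in
theorem M_zpow (k : ℤ) (i j : B) : M ((q ^ k) i) ((q ^ k) j) = M i j := by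
  have hM' : ∀ i j, M (q⁻¹ i) (q⁻¹ j) = M i j := by
    intro i j
    have h1 : ∀ i, q (q⁻¹ i) = i := fun i => Equiv.apply_symm_apply q i
    rw [← hM (q⁻¹ i) (q⁻¹ j), h1, h1]
  induction k with
  | zero => simp
  | succ k ih => rw [add_comm, zpow_add, zpow_one, Equiv.Perm.mul_apply, Equiv.Perm.mul_apply, hM, ih]
  | pred k ih =>
    rw [sub_eq_neg_add, zpow_add, zpow_neg_one, Equiv.Perm.mul_apply, Equiv.Perm.mul_apply, hM', ih]

include hper in
theorem per_pt {x : B} (hx : ∃ k : ℤ, (q ^ k) x ∈ T) (hp : Pr q x) (a : ℤ) : (q ^ (n * a)) x = x := by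
  obtain ⟨k, hk⟩ := hx
  have h1 := hper _ hk (hp.shift k)
  have h2 : (q ^ n) x = x := by
    rw [zpow_shift, add_comm, ← zpow_shift] at h1
    exact (q ^ k).injective h1
  rw [zpow_mul]
  exact Equiv.Perm.zpow_apply_eq_self_of_apply_eq_self h2 a

theorem Wit.shift {x y : B} (h : Wit q T x y) (l : ℤ) : Wit q T ((q ^ l) x) ((q ^ l) y) := by
  obtain ⟨k, h1, h2⟩ := h
  refine ⟨k - l, ?_, ?_⟩
  · rw [zpow_shift]; simpa using h1
  · rw [zpow_shift]; simpa using h2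

theorem Wit.left {x y : B} (h : Wit q T x y) : ∃ k : ℤ, (q ^ k) x ∈ T := by
  obtain ⟨k, h1, _⟩ := h
  exact ⟨k, h1⟩

theorem Wit.right {x y : B} (h : Wit q T x y) : ∃ k : ℤ, (q ^ k) y ∈ T := by
  obtain ⟨k, _, h1⟩ := h
  exact ⟨k, h1⟩

theorem Wit.symm {x y : B} (h : Wit q T x y) : Wit q T y x := by
  obtain ⟨k, h1, h2⟩ := h
  exact ⟨k, h2, h1⟩

theorem small_mul {a : ℤ} (hn : 0 < n) (h : |n * a| < n) : a = 0 := by
  rw [abs_mul, abs_of_pos hn] at h
  by_contra hne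
  have h1 : 1 ≤ |a| := Int.one_le_abs hne
  nlinarith

include hM hD hnD hD0 hper in
/-- the label is independent of the witnesses -/
theorem wit_label {x y : B} {a b : ℤ} (h : Wit q T x y)
    (h' : Wit q T ((q ^ (n * a)) x) ((q ^ (n * b)) y)) :
    M ((q ^ (n * a)) x) ((q ^ (n * b)) y) = M x y := by
  have hn : 0 < n := by omega
  by_cases hx : Pr q x
  · have h1 := per_pt hper h.left hx
    rw [h1 a]
    conv_lhs => rw [← h1 b]
    exact M_zpow M hM _ _ _
  by_cases hy : Pr q y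
  · have h1 := per_pt hper h.right hy
    rw [h1 b]
    conv_lhs => rw [← h1 a]
    exact M_zpow M hM _ _ _
  obtain ⟨k, k1, k2⟩ := h
  obtain ⟨l, l1, l2⟩ := h'
  rw [zpow_shift] at l1 l2
  have e1 := hD x hx _ _ l1 k1
  have e2 := hD y hy _ _ l2 k2
  have e3 : |n * (a - b)| < n := by
    rw [abs_le] at e1 e2
    rw [mul_sub, abs_lt]
    constructor <;> omega
  have e4 := small_mul hn e3
  have e5 : a = b := by omega
  rw [e5]
  exact M_zpow M hM _ _ _

open Classical in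
/-- the label of two classes -/
noncomputable def wM (a b : BB q T n) : ℕ :=
  if h : ∃ p : B1 q T × B1 q T, mk p.1 = a ∧ mk p.2 = b ∧ Wit q T p.1.1 p.2.1 then
    M h.choose.1.1 h.choose.2.1 else 0

include hM hD hnD hD0 hper in
theorem wM_eq {x y : B1 q T} (h : Wit q T x.1 y.1) : wM M (mk x : BB q T n) (mk y) = M x.1 y.1 := by
  have hex : ∃ p : B1 q T × B1 q T, (mk p.1 : BB q T n) = mk x ∧ (mk p.2 : BB q T n) = mk y ∧
      Wit q T p.1.1 p.2.1 := ⟨(x, y), rfl, rfl, h⟩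
  unfold wM
  rw [dif_pos hex]
  obtain ⟨h1, h2, h3⟩ := hex.choose_spec
  obtain ⟨a, ha⟩ := mk_eq.1 h1.symm
  obtain ⟨b, hb⟩ := mk_eq.1 h2.symm
  rw [← ha, ← hb] at h3 ⊢
  exact wit_label M hM hD hnD hD0 hper h h3

theorem wM_zero {a b : BB q T n} (h : ¬ ∃ p : B1 q T × B1 q T, mk p.1 = a ∧ mk p.2 = b ∧
    Wit q T p.1.1 p.2.1) : wM M a b = 0 := by
  unfold wM
  rw [dif_neg h]

theorem wit_self (x : B1 q T) : Wit q T x.1 x.1 := by
  obtain ⟨k, hk⟩ := x.2
  exact ⟨k, hk, hk⟩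

/-- the finite Coxeter matrix -/
noncomputable def MM : CoxeterMatrix (BB q T n) where
  M := fun a b => wM M a b
  isSymm := by
    ext a b
    show wM M b a = wM M a b
    by_cases h : ∃ p : B1 q T × B1 q T, mk p.1 = a ∧ mk p.2 = b ∧ Wit q T p.1.1 p.2.1
    · obtain ⟨⟨x, y⟩, rfl, rfl, h⟩ := h
      rw [wM_eq M hM hD hnD hD0 hper h, wM_eq M hM hD hnD hD0 hper h.symm, M.symmetric]
    · have h' : ¬ ∃ p : B1 q T × B1 q T, mk p.1 = b ∧ mk p.2 = a ∧ Wit q T p.1.1 p.2.1 := by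
        rintro ⟨⟨x, y⟩, h1, h2, h3⟩
        exact h ⟨(y, x), h2, h1, h3.symm⟩
      rw [wM_zero M h, wM_zero M h']
  diagonal := by
    intro a
    obtain ⟨x, rfl⟩ := mk_surj a
    rw [wM_eq M hM hD hnD hD0 hper (wit_self x)]
    exact M.diagonal _
  off_diagonal := by
    intro a b hab
    by_cases h : ∃ p : B1 q T × B1 q T, mk p.1 = a ∧ mk p.2 = b ∧ Wit q T p.1.1 p.2.1
    · obtain ⟨⟨x, y⟩, rfl, rfl, h⟩ := h
      rw [wM_eq M hM hD hnD hD0 hper h]
      apply M.off_diagonal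
      intro hxy
      exact hab (congrArg mk (Subtype.ext hxy))
    · rw [wM_zero M h]
      exact Nat.zero_ne_one

/-- the shift -/
def sh1 (l : ℤ) (x : B1 q T) : B1 q T := ⟨(q ^ l) x.1, by
  obtain ⟨k, hk⟩ := x.2
  refine ⟨k - l, ?_⟩
  rw [zpow_shift]
  simpa using hk⟩

/-- the shift on the classes -/
def shB (l : ℤ) : BB q T n → BB q T n :=
  Quotient.map (sh1 l) (by
    rintro x y ⟨a, h⟩
    refine ⟨a, ?_⟩
    show (q ^ (n * a)) ((q ^ l) x.1) = (q ^ l) y.1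
    rw [← h, zpow_shift, zpow_shift, add_comm])

theorem shB_mk (l : ℤ) (x : B1 q T) : shB l (mk x : BB q T n) = mk (sh1 l x) := rfl

theorem shB_shB (k l : ℤ) (a : BB q T n) : shB k (shB l a) = shB (k + l) a := by
  obtain ⟨x, rfl⟩ := mk_surj a
  rw [shB_mk, shB_mk, shB_mk]
  congr 1
  apply Subtype.ext
  exact zpow_shift k l x.1

theorem shB_zero (a : BB q T n) : shB 0 a = a := by
  obtain ⟨x, rfl⟩ := mk_surj a
  rw [shB_mk]
  congr 1

/-- the shift as a permutation -/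
def shP : Equiv.Perm (BB q T n) where
  toFun := shB 1
  invFun := shB (-1)
  left_inv := fun a => by rw [shB_shB, neg_add_cancel, shB_zero]
  right_inv := fun a => by rw [shB_shB, add_neg_cancel, shB_zero]

include hM hD hnD hD0 hper in
theorem wM_shift (a b : BB q T n) : wM M (shB 1 a) (shB 1 b) = wM M a b := by
  by_cases h : ∃ p : B1 q T × B1 q T, mk p.1 = a ∧ mk p.2 = b ∧ Wit q T p.1.1 p.2.1
  · obtain ⟨⟨x, y⟩, rfl, rfl, h⟩ := h
    rw [shB_mk, shB_mk, wM_eq M hM hD hnD hD0 hper h, wM_eq M hM hD hnD hD0 hper (h.shift 1)]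
    exact M_zpow M hM 1 _ _
  · have h' : ¬ ∃ p : B1 q T × B1 q T, mk p.1 = shB 1 a ∧ mk p.2 = shB 1 b ∧ Wit q T p.1.1 p.2.1 := by
      rintro ⟨⟨x, y⟩, h1, h2, h3⟩
      refine h ⟨(sh1 (-1) x, sh1 (-1) y), ?_, ?_, h3.shift (-1)⟩
      · show mk (sh1 (-1) x) = a
        rw [← shB_mk, show mk x = shB 1 a from h1, shB_shB, neg_add_cancel, shB_zero]
      · show mk (sh1 (-1) y) = b
        rw [← shB_mk, show mk y = shB 1 b from h2, shB_shB, neg_add_cancel, shB_zero]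
    rw [wM_zero M h, wM_zero M h']

theorem exists_wit {a b : BB q T n} (h : wM M a b ≠ 0) :
    ∃ x y : B1 q T, mk x = a ∧ mk y = b ∧ Wit q T x.1 y.1 := by
  by_contra hcon
  apply h
  apply wM_zero
  rintro ⟨⟨x, y⟩, h1, h2, h3⟩
  exact hcon ⟨x, y, h1, h2, h3⟩

include hM hD hnD hD0 hper in
/-- **cliques lift** -/
theorem clique_lift (K : Set (BB q T n)) (hK : ∀ a ∈ K, ∀ b ∈ K, wM M a b ≠ 0) :
    ∃ f : K → B, ∀ a b : K, M (f a) (f b) = wM M a.1 b.1 := by
  classical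
  have hn : 0 < n := by omega
  -- a choice of points such that two points with infinite orbits are close
  suffices h : ∃ f : K → B1 q T, (∀ a, (mk (f a) : BB q T n) = a.1) ∧
      ∀ a b : K, ¬ Pr q (f a).1 → ¬ Pr q (f b).1 → ∀ α β k : ℤ,
        (q ^ (k + n * α)) (f a).1 ∈ T → (q ^ (k + n * β)) (f b).1 ∈ T → α = β by
    obtain ⟨f, hf, hcl⟩ := h
    refine ⟨fun a => (f a).1, fun a b => ?_⟩
    obtain ⟨x, y, hx, hy, hw⟩ := exists_wit M (hK a.1 a.2 b.1 b.2)
    rw [← hf a] at hx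
    rw [← hf b] at hy
    obtain ⟨α, hα⟩ := mk_eq.1 hx.symm
    obtain ⟨β, hβ⟩ := mk_eq.1 hy.symm
    have hw' : Wit q T (f a).1 (f b).1 := by
      rw [← hα, ← hβ] at hw
      by_cases ha : Pr q (f a).1
      · have h1 := per_pt hper (f a).2 ha
        have h2 := hw.shift (-(n * β))
        rw [zpow_shift, zpow_shift, neg_add_cancel, zpow_zero] at h2
        have h3 : -(n * β) + n * α = n * (α - β) := by ring
        rw [h3, h1] at h2
        exact h2
      by_cases hb : Pr q (f b).1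
      · have h1 := per_pt hper (f b).2 hb
        have h2 := hw.shift (-(n * α))
        rw [zpow_shift, zpow_shift, neg_add_cancel, zpow_zero] at h2
        have h3 : -(n * α) + n * β = n * (β - α) := by ring
        rw [h3, h1] at h2
        exact h2
      obtain ⟨k, k1, k2⟩ := hw
      rw [zpow_shift] at k1 k2
      have h1 := hcl a b ha hb α β k k1 k2
      rw [h1] at k1
      exact ⟨k + n * β, k1, k2⟩
    rw [← hf a, ← hf b, wM_eq M hM hD hnD hD0 hper hw']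
  by_cases hall : ∃ x0 : B1 q T, (mk x0 : BB q T n) ∈ K ∧ ¬ Pr q x0.1
  · obtain ⟨x0, hx0, hx0p⟩ := hall
    have hex : ∀ b : K, ∃ y : B1 q T, (mk y : BB q T n) = b.1 ∧ Wit q T x0.1 y.1 := by
      intro b
      obtain ⟨x, y, hx, hy, hw⟩ := exists_wit M (hK _ hx0 b.1 b.2)
      obtain ⟨α, hα⟩ := mk_eq.1 hx.symm
      refine ⟨sh1 (-(n * α)) y, ?_, ?_⟩
      · rw [← hy]
        refine mk_eq.2 ⟨α, ?_⟩
        show (q ^ (n * α)) ((q ^ (-(n * α))) y.1) = y.1
        rw [zpow_shift, add_neg_cancel, zpow_zero, Equiv.Perm.one_apply]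
      · have h2 := hw.shift (-(n * α))
        rw [← hα, zpow_shift, neg_add_cancel, zpow_zero, Equiv.Perm.one_apply] at h2
        exact h2
    choose f hf1 hf2 using hex
    refine ⟨f, hf1, fun a b ha hb α β k h1 h2 => ?_⟩
    obtain ⟨k1, p1, p2⟩ := hf2 a
    obtain ⟨k2, p3, p4⟩ := hf2 b
    have e1 := hD _ hx0p _ _ p1 p3
    have e2 := hD _ ha _ _ h1 p2
    have e3 := hD _ hb _ _ h2 p4
    have e4 : |n * (α - β)| < n := by
      rw [abs_le] at e1 e2 e3
      rw [mul_sub, abs_lt]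
      constructor <;> omega
    have e5 := small_mul hn e4
    omega
  · have hall' : ∀ x0 : B1 q T, (mk x0 : BB q T n) ∈ K → Pr q x0.1 := by
      intro x0 hx0
      by_contra h
      exact hall ⟨x0, hx0, h⟩
    refine ⟨fun a => (mk_surj a.1).choose, fun a => (mk_surj a.1).choose_spec, fun a b ha => ?_⟩
    exact absurd (hall' _ (by rw [(mk_surj a.1).choose_spec]; exact a.2)) ha

end eppa

/-- **extension of partial automorphisms** -/
theorem eppa {B : Type} (M : CoxeterMatrix B) (q : Equiv.Perm B) (hM : ∀ i j, M (q i) (q j) = M i j)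
    (T : Set B) (hT : T.Finite) :
    ∃ (B' : Type) (_ : Finite B') (M' : CoxeterMatrix B') (ι : T ↪ B') (π : Equiv.Perm B'),
      (∀ s t, M' (ι s) (ι t) = M (s : B) (t : B)) ∧ (∀ i j, M' (π i) (π j) = M' i j) ∧
      (∀ (s : T) (h : q s ∈ T), π (ι s) = ι ⟨q s, h⟩) ∧
      ∀ K : Set B', (∀ a ∈ K, ∀ b ∈ K, M' a b ≠ 0) → ∃ f : K → B, ∀ a b : K, M (f a) (f b) = M' a b := by
  obtain ⟨D, hD0, hD⟩ := exists_bound (q := q) hT
  obtain ⟨N, hN, hper⟩ := exists_period (q := q) hT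
  let n : ℤ := N * (3 * D + 1)
  have hnD : 3 * D < n := by
    show 3 * D < N * (3 * D + 1)
    nlinarith
  have hn : 0 < n := by omega
  have hper' : ∀ t ∈ T, Pr q t → (q ^ n) t = t := by
    intro t ht hp
    show (q ^ (N * (3 * D + 1))) t = t
    rw [zpow_mul]
    exact Equiv.Perm.zpow_apply_eq_self_of_apply_eq_self (hper t ht hp) _
  have hb : ∀ t : T, ∃ k : ℤ, (q ^ k) (t : B) ∈ T := fun t => ⟨0, by simp⟩
  have hw : ∀ s t : T, Wit q T (s : B) (t : B) := fun s t => ⟨0, by simp, by simp⟩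
  refine ⟨BB q T n, finite_BB hT hn, MM M hM hD hnD hD0 hper', ⟨fun t => mk ⟨t.1, hb t⟩, ?_⟩, shP,
    ?_, ?_, ?_, ?_⟩
  · intro s t hst
    obtain ⟨a, ha⟩ := mk_eq.1 hst
    have ha' : (q ^ (n * a)) (s : B) = t := ha
    by_cases hp : Pr q (s : B)
    · rw [per_pt hper' (hb s) hp] at ha'
      exact Subtype.ext ha'
    · have h1 := hD _ hp (n * a) 0 (by rw [ha']; exact t.2) (by simp)
      have h2 := small_mul (n := n) (a := a) hn (by rw [sub_zero] at h1; omega)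
      rw [h2] at ha'
      exact Subtype.ext (by simpa using ha')
  · intro s t
    exact wM_eq M hM hD hnD hD0 hper' (x := ⟨s.1, hb s⟩) (y := ⟨t.1, hb t⟩) (hw s t)
  · intro i j
    exact wM_shift M hM hD hnD hD0 hper' i j
  · intro s h
    have h1 : shB 1 (mk (⟨s.1, hb s⟩ : B1 q T) : BB q T n) = mk (sh1 1 ⟨s.1, hb s⟩) := rfl
    refine h1.trans (congrArg mk (Subtype.ext ?_))
    show (q ^ (1 : ℤ)) s.1 = q s.1
    rw [zpow_one]
  · intro K hK
    exact clique_lift M hM hD hnD hD0 hper' K hK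

end Pool.Agent.X201.SH
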