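import Pool.Agent.X201.SH.Kern
import Pool.Agent.X201.AT.Inf

/-!
Extensions whose kernel is an Artin group or a Coxeter group.
-/

set_option autoImplicit false

namespace Pool.Agent.X201.SH

open Pool.Agent.Helper741 Pool.Agent.TH107 CoxeterSystem Pool.Agent.X176.FJ
open Pool.Agent.Y110.FJ Pool.Agent.X201.FJ Pool.Agent.X201.AT

variable {C : ∀ (G : Type) [Group G], Prop}

section artin

variable {B : Type} (M : CoxeterMatrix B)

/-- the homomorphism to the Artin group -/
def toArtin : Sh M 0 →* Artin M := lift (Artin.gen M) Artin.rel fun _ => pow_zero _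

/-- the homomorphism from the Artin group -/
def ofArtin : Artin M →* Sh M 0 := Artin.lift (gen M 0) rel

theorem toArtin_gen (i : B) : toArtin M (gen M 0 i) = Artin.gen M i := lift_gen _ _ _ i
theorem ofArtin_gen (i : B) : ofArtin M (Artin.gen M i) = gen M 0 i := Artin.lift_gen _ _ i

/-- the isomorphism with the Artin group -/
def shArtin : Sh M 0 ≃* Artin M :=
  MonoidHom.toMulEquiv (toArtin M) (ofArtin M)
    (by
      apply hom_ext
      intro i
      rw [MonoidHom.comp_apply, toArtin_gen, ofArtin_gen]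
      rfl)
    (by
      apply Artin.hom_ext
      intro i
      rw [MonoidHom.comp_apply, ofArtin_gen, toArtin_gen]
      rfl)

theorem shArtin_gen (i : B) : shArtin M (gen M 0 i) = Artin.gen M i := toArtin_gen M i

theorem shArtin_par (X : Set B) : (par M 0 X).map (shArtin M).toMonoidHom = AT.par M X := by
  unfold par AT.par
  rw [MonoidHom.map_closure]
  congr 1
  ext x
  constructor
  · rintro ⟨_, ⟨i, hi, rfl⟩, rfl⟩
    exact ⟨i, hi, (shArtin_gen M i).symm⟩
  · rintro ⟨i, hi, rfl⟩
    exact ⟨_, ⟨i, hi, rfl⟩, shArtin_gen M i⟩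

/-- **kernels which are Artin groups** -/
theorem artin_kern (hC : ClosedE C) (hcox : ∀ (B : Type) [Finite B] (M : CoxeterMatrix B), C M.Group)
    {Γ : Type} [Group Γ] (N : Subgroup Γ) [N.Normal] (e : Artin M ≃* N)
    (hact : ∀ γ : Γ, ∃ (π : Equiv.Perm B) (a : Artin M), (∀ i j, M (π i) (π j) = M i j) ∧
      ∀ i, γ * (e (Artin.gen M i) : Γ) * γ⁻¹ = e (a * Artin.gen M (π i) * a⁻¹))
    (hQ : C (Γ ⧸ N)) :
    C Γ ↔ ∀ X : Set B, X.Finite → (∀ i ∈ X, ∀ j ∈ X, M i j ≠ 0) → C (AT.par M X) := by
  constructor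
  · intro h X _ _
    have hN : C N := hC.base.of_injective _ _ N.subtype N.subtype_injective h
    have hA : C (Artin M) := hC.base.of_injective _ _ e.toMonoidHom e.injective hN
    exact hC.base.of_injective _ _ (AT.par M X).subtype (AT.par M X).subtype_injective hA
  · intro hK
    refine sh_kern M hC hcox (c := 0) (by simp) N ((shArtin M).trans e) ?_ hQ ?_
    · intro γ
      obtain ⟨π, a, hπ, h⟩ := hact γ
      refine ⟨π, (shArtin M).symm a, hπ, fun i => ?_⟩
      have h1 : shArtin M ((shArtin M).symm a * gen M 0 (π i) * ((shArtin M).symm a)⁻¹) =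
          a * Artin.gen M (π i) * a⁻¹ := by
        rw [map_mul, map_mul, map_inv, MulEquiv.apply_symm_apply, shArtin_gen]
      show γ * (e (shArtin M (gen M 0 i)) : Γ) * γ⁻¹ =
        e (shArtin M ((shArtin M).symm a * gen M 0 (π i) * ((shArtin M).symm a)⁻¹))
      rw [h1, shArtin_gen, h]
    · intro X hX hcl
      have h1 := hK X hX hcl
      rw [← shArtin_par] at h1
      exact hC.base.of_injective _ _ ((par M 0 X).equivMapOfInjective _ (shArtin M).injective).toMonoidHom
        ((par M 0 X).equivMapOfInjective _ (shArtin M).injective).injective h1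

end artin

section cox

theorem pow_of_alt {G : Type*} [Group G] {a b : G} (ha : a ^ 2 = 1) (hb : b ^ 2 = 1) {m : ℕ}
    (h : alt a b m = alt b a m) : (a * b) ^ m = 1 := by
  have ha' : a⁻¹ = a := by rw [inv_eq_iff_mul_eq_one, ← pow_two, ha]
  have hb' : b⁻¹ = b := by rw [inv_eq_iff_mul_eq_one, ← pow_two, hb]
  have hinv : ∀ k : ℕ, ((b * a) ^ k)⁻¹ = (a * b) ^ k := by
    intro k
    rw [← inv_pow, mul_inv_rev, ha', hb']
  rcases Nat.even_or_odd' m with ⟨k, rfl | rfl⟩
  · rw [alt_mul_two, alt_mul_two] at h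
    rw [two_mul, pow_add]
    nth_rewrite 1 [h]
    rw [← hinv k, mul_inv_cancel]
  · rw [alt_mul_two_add_one, alt_mul_two_add_one] at h
    have h1 : (a * b) ^ k * a * ((b * a) ^ k * b)⁻¹ = 1 := by rw [h, mul_inv_cancel]
    rw [mul_inv_rev, hb', hinv] at h1
    have h2 : (a * b) ^ (2 * k + 1) = (a * b) ^ k * a * (b * (a * b) ^ k) := by
      have : 2 * k + 1 = k + (1 + k) := by ring
      rw [this, pow_add, pow_add, pow_one]
      simp only [mul_assoc]
    rw [h2, h1]

variable {B : Type} {M : CoxeterMatrix B} {N : Type} [Group N] (cs : CoxeterSystem M N)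

/-- the homomorphism to the Coxeter group -/
def toCox : Sh M 2 →* N :=
  lift cs.simple (fun i j => alt_comm_of_pow (cs.simple_mul_simple_self i)
      (cs.simple_mul_simple_self j) (cs.simple_mul_simple_pow i j)) fun i => by
        rw [pow_two, cs.simple_mul_simple_self]

theorem liftable_gen : M.IsLiftable (gen M 2) := fun i j => pow_of_alt (gen_pow i) (gen_pow j) (rel i j)

/-- the homomorphism from the Coxeter group -/
noncomputable def ofCox : N →* Sh M 2 := cs.lift ⟨gen M 2, liftable_gen⟩

theorem toCox_gen (i : B) : toCox cs (gen M 2 i) = cs.simple i := lift_gen _ _ _ i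
theorem ofCox_simple (i : B) : ofCox cs (cs.simple i) = gen M 2 i := cs.lift_apply_simple liftable_gen i

/-- the isomorphism with the Coxeter group -/
noncomputable def shCox : Sh M 2 ≃* N :=
  MonoidHom.toMulEquiv (toCox cs) (ofCox cs)
    (by
      apply hom_ext
      intro i
      rw [MonoidHom.comp_apply, toCox_gen, ofCox_simple]
      rfl)
    (by
      apply cs.ext_simple
      intro i
      rw [MonoidHom.comp_apply, ofCox_simple, toCox_gen]
      rfl)

theorem shCox_gen (i : B) : shCox cs (gen M 2 i) = cs.simple i := toCox_gen cs i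

/-- **kernels which are Coxeter groups** -/
theorem cox_kern (hC : ClosedE C) (hcox : ∀ (B : Type) [Finite B] (M : CoxeterMatrix B), C M.Group)
    {B : Type} {M : CoxeterMatrix B}
    {Γ : Type} [Group Γ] (N : Subgroup Γ) [N.Normal] (cs : CoxeterSystem M N)
    (hact : ∀ γ : Γ, ∃ (π : Equiv.Perm B) (a : N), (∀ i j, M (π i) (π j) = M i j) ∧
      ∀ i, γ * (cs.simple i : Γ) * γ⁻¹ = (a : Γ) * cs.simple (π i) * (a : Γ)⁻¹)
    (hQ : C (Γ ⧸ N)) : C Γ := by
  refine sh_kern M hC hcox (c := 2) (by decide) N (shCox cs) ?_ hQ ?_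
  · intro γ
    obtain ⟨π, a, hπ, h⟩ := hact γ
    refine ⟨π, (shCox cs).symm a, hπ, fun i => ?_⟩
    have h1 : shCox cs ((shCox cs).symm a * gen M 2 (π i) * ((shCox cs).symm a)⁻¹) =
        a * cs.simple (π i) * a⁻¹ := by
      rw [map_mul, map_mul, map_inv, MulEquiv.apply_symm_apply, shCox_gen]
    rw [h1, shCox_gen, h]
    rfl
  · intro X hX _
    have : Finite X := hX.to_subtype
    rw [← range_inc_set]
    let e := MonoidHom.ofInjective (inc_inj_fin M (c := 2) (by decide) hX)
    refine hC.base.of_injective _ _ e.symm.toMonoidHom e.symm.injective ?_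
    exact hC.base.of_injective _ _ (shCox (resM M X).toCoxeterSystem).toMonoidHom
      (shCox (resM M X).toCoxeterSystem).injective (hcox X (resM M X))

end cox

end Pool.Agent.X201.SH
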