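import Pool.Agent.X201.SH.Main
import Pool.Agent.X176.FJ.Crit

/-!
The groups `Sh M c` of arbitrary rank.
-/

set_option autoImplicit false

namespace Pool.Agent.X201.SH

open Pool.Agent.Helper741 Pool.Agent.TH107 CoxeterSystem Pool.Agent.X176.FJ
open Pool.Agent.Y110.FJ Pool.Agent.X201.FJ Pool.Agent.X201.AT

variable {B : Type} (M : CoxeterMatrix B) (c : ℕ)

/-- the restriction to a subset -/
abbrev resM (X : Set B) : CoxeterMatrix X := subM M (Function.Embedding.subtype (· ∈ X))

/-- the homomorphism for an inclusion of subsets -/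
def incS {X Y : Set B} (h : X ⊆ Y) : Sh (resM M X) c →* Sh (resM M Y) c :=
  lift (fun i => gen (resM M Y) c ⟨i, h i.2⟩) (fun i j =>
    rel (M := resM M Y) ⟨i, h i.2⟩ ⟨j, h j.2⟩) fun i => gen_pow _

theorem incS_gen {X Y : Set B} (h : X ⊆ Y) (i : X) :
    incS M c h (gen (resM M X) c i) = gen (resM M Y) c ⟨i, h i.2⟩ := lift_gen _ _ _ _

variable {c}

theorem incS_injective (hc : Even c) {X Y : Set B} (h : X ⊆ Y) (hY : Y.Finite) :
    Function.Injective (incS M c h) := by
  have : Finite Y := hY.to_subtype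
  exact inc_injective' (resM M Y) hc (Set.embeddingOfSubset X Y h)

variable (c)

/-- the directed product of the groups of the finite subsets -/
abbrev Big : Type := (T : {S : Set B // S.Finite}) → Sh (resM M T.1) c

/-- the elements which are trivial for large subsets -/
def small : Subgroup (Big M c) where
  carrier := {f | ∃ T0 : {S : Set B // S.Finite}, ∀ T, T0 ≤ T → f T = 1}
  one_mem' := ⟨⟨∅, Set.finite_empty⟩, fun _ _ => rfl⟩
  mul_mem' := by
    rintro f g ⟨T0, h0⟩ ⟨T1, h1⟩
    refine ⟨⟨T0.1 ∪ T1.1, T0.2.union T1.2⟩, fun T hT => ?_⟩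
    show f T * g T = 1
    rw [h0 T (le_trans (Set.subset_union_left : T0.1 ⊆ _) hT),
      h1 T (le_trans (Set.subset_union_right : T1.1 ⊆ _) hT), mul_one]
  inv_mem' := by
    rintro f ⟨T0, h0⟩
    refine ⟨T0, fun T hT => ?_⟩
    show (f T)⁻¹ = 1
    rw [h0 T hT, inv_one]

instance : (small M c).Normal where
  conj_mem := by
    rintro f ⟨T0, h0⟩ g
    refine ⟨T0, fun T hT => ?_⟩
    show g T * f T * (g T)⁻¹ = 1
    rw [h0 T hT, mul_one, mul_inv_cancel]

open Classical in
/-- the image of a generator -/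
noncomputable def bigGen (s : B) : Big M c := fun T =>
  if h : s ∈ T.1 then gen (resM M T.1) c ⟨s, h⟩ else 1

theorem alt_apply {ι : Type} {G : ι → Type} [∀ i, Group (G i)] (a b : (i : ι) → G i) (n : ℕ) (i : ι) :
    (alt a b n) i = alt (a i) (b i) n := by
  have := map_alt (Pi.evalMonoidHom G i) a b n
  exact this

/-- the homomorphism to the germs -/
noncomputable def germ : Sh M c →* Big M c ⧸ small M c :=
  lift (fun s => ((bigGen M c s : Big M c) : Big M c ⧸ small M c)) (fun s t => by
    have h1 := map_alt (QuotientGroup.mk' (small M c)) (bigGen M c s) (bigGen M c t) (M s t)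
    have h2 := map_alt (QuotientGroup.mk' (small M c)) (bigGen M c t) (bigGen M c s) (M s t)
    show alt ((QuotientGroup.mk' (small M c)) (bigGen M c s)) ((QuotientGroup.mk' (small M c)) (bigGen M c t))
      (M s t) = alt ((QuotientGroup.mk' (small M c)) (bigGen M c t))
      ((QuotientGroup.mk' (small M c)) (bigGen M c s)) (M s t)
    rw [← h1, ← h2]
    show ((_ : Big M c) : Big M c ⧸ small M c) = ((_ : Big M c) : Big M c ⧸ small M c)
    rw [QuotientGroup.eq]
    refine ⟨⟨{s, t}, by simp⟩, fun T hT => ?_⟩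
    have hs : s ∈ T.1 := hT (by simp)
    have ht : t ∈ T.1 := hT (by simp)
    show (alt (bigGen M c s) (bigGen M c t) (M s t) T)⁻¹ * alt (bigGen M c t) (bigGen M c s) (M s t) T = 1
    rw [inv_mul_eq_one, alt_apply, alt_apply]
    have e1 : bigGen M c s T = gen (resM M T.1) c ⟨s, hs⟩ := dif_pos hs
    have e2 : bigGen M c t T = gen (resM M T.1) c ⟨t, ht⟩ := dif_pos ht
    rw [e1, e2]
    exact rel (M := resM M T.1) ⟨s, hs⟩ ⟨t, ht⟩) fun s => by
    have h1 : (bigGen M c s) ^ c = 1 := by
      funext T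
      show (bigGen M c s T) ^ c = 1
      unfold bigGen
      split_ifs with h
      · exact gen_pow _
      · exact one_pow c
    show ((QuotientGroup.mk' (small M c)) (bigGen M c s)) ^ c = 1
    rw [← map_pow, h1, map_one]

open Classical in
/-- the germ of an element of the group of a finite subset -/
noncomputable def bigInc {X : Set B} : Sh (resM M X) c →* Big M c where
  toFun := fun u T => if h : X ⊆ T.1 then incS M c h u else 1
  map_one' := by
    funext T
    by_cases h : X ⊆ T.1
    · rw [dif_pos h, map_one]; rfl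
    · rw [dif_neg h]; rfl
  map_mul' := fun u v => by
    funext T
    show _ = (if h : X ⊆ T.1 then incS M c h u else 1) * (if h : X ⊆ T.1 then incS M c h v else 1)
    by_cases h : X ⊆ T.1
    · rw [dif_pos h, dif_pos h, dif_pos h, map_mul]
    · rw [dif_neg h, dif_neg h, dif_neg h, mul_one]

theorem germ_inc {X : Set B} (hX : X.Finite) (u : Sh (resM M X) c) :
    germ M c (inc M c (Function.Embedding.subtype (· ∈ X)) u) =
      ((bigInc M c u : Big M c) : Big M c ⧸ small M c) := by
  have h1 : (germ M c).comp (inc M c (Function.Embedding.subtype (· ∈ X))) =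
      (QuotientGroup.mk' (small M c)).comp (bigInc M c) := by
    apply hom_ext
    intro s
    rw [MonoidHom.comp_apply, inc_gen]
    have h2 : germ M c (gen M c (s : B)) = ((bigGen M c (s : B) : Big M c) : Big M c ⧸ small M c) :=
      lift_gen _ _ _ _
    show germ M c (gen M c (s : B)) = ((bigInc M c (gen _ c s) : Big M c) : Big M c ⧸ small M c)
    rw [h2, QuotientGroup.eq]
    refine ⟨⟨X, hX⟩, fun T hT => ?_⟩
    have hT' : X ⊆ T.1 := hT
    have hs : (s : B) ∈ T.1 := hT' s.2
    show (bigGen M c (s : B) T)⁻¹ * bigInc M c (gen _ c s) T = 1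
    have e1 : bigGen M c (s : B) T = gen (resM M T.1) c ⟨s, hs⟩ := dif_pos hs
    have e2 : bigInc M c (gen (resM M X) c s) T = incS M c hT' (gen (resM M X) c s) := dif_pos hT'
    rw [e1, e2, incS_gen, inv_mul_eq_one]
  exact DFunLike.congr_fun h1 u

variable {c}

theorem inc_inj_fin (hc : Even c) {X : Set B} (hX : X.Finite) :
    Function.Injective (inc M c (Function.Embedding.subtype (· ∈ X))) := by
  rw [injective_iff_map_eq_one]
  intro u hu
  have h1 := germ_inc M c hX u
  rw [hu, map_one] at h1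
  have h2 := QuotientGroup.eq.1 (h1 : (((1 : Big M c) : Big M c ⧸ small M c)) =
    ((bigInc M c u : Big M c) : Big M c ⧸ small M c))
  rw [inv_one, one_mul] at h2
  obtain ⟨T0, h0⟩ := h2
  have h3 := h0 ⟨T0.1 ∪ X, T0.2.union hX⟩ (Set.subset_union_left : T0.1 ⊆ _)
  have h4 : bigInc M c u ⟨T0.1 ∪ X, T0.2.union hX⟩ =
      incS M c (Set.subset_union_right : X ⊆ T0.1 ∪ X) u := dif_pos _
  rw [h4] at h3
  exact (injective_iff_map_eq_one _).1 (incS_injective M hc _ (T0.2.union hX)) u h3

/-- **standard parabolic subgroups of finite rank**, arbitrary rank of the big group -/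
theorem inc_fin (hc : Even c) {K : Type} [Finite K] (e : K ↪ B) : Function.Injective (inc M c e) := by
  let X : Set B := Set.range e
  let M' := subM M (Function.Embedding.subtype (· ∈ X))
  let F : K → Sh M' c := fun i => gen M' c ⟨e i, ⟨i, rfl⟩⟩
  let j : Sh (subM M e) c →* Sh M' c := lift F
    (fun a b => rel (M := M') ⟨e a, ⟨a, rfl⟩⟩ ⟨e b, ⟨b, rfl⟩⟩) fun a => gen_pow _
  let k : X → K := fun x => x.2.choose
  have hk : ∀ x : X, e (k x) = x := fun x => x.2.choose_spec
  let r : Sh M' c →* Sh (subM M e) c := lift (fun x => gen (subM M e) c (k x)) (fun x y => by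
    have h1 : M' x y = subM M e (k x) (k y) := by
      show M (x : B) (y : B) = M (e (k x)) (e (k y))
      rw [hk, hk]
    rw [h1]
    exact rel _ _) fun x => gen_pow _
  have hrj : r.comp j = MonoidHom.id _ := by
    apply hom_ext
    intro i
    have h1 : j (gen _ c i) = F i := lift_gen _ _ _ i
    have h2 : r (F i) = gen (subM M e) c (k ⟨e i, ⟨i, rfl⟩⟩) := lift_gen _ _ _ _
    have h3 : k ⟨e i, ⟨i, rfl⟩⟩ = i := e.injective (hk ⟨e i, ⟨i, rfl⟩⟩)
    rw [MonoidHom.comp_apply, h1, h2, h3]
    rfl
  have hij : (inc M c (Function.Embedding.subtype (· ∈ X))).comp j = inc M c e := by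
    apply hom_ext
    intro i
    have h1 : j (gen _ c i) = F i := lift_gen _ _ _ i
    rw [MonoidHom.comp_apply, h1, inc_gen, inc_gen]
    rfl
  rw [← hij]
  intro u v huv
  have h1 : j u = j v := inc_inj_fin M hc (Set.finite_range e) huv
  have h2 := DFunLike.congr_fun hrj u
  have h3 := DFunLike.congr_fun hrj v
  rw [MonoidHom.comp_apply, h1] at h2
  exact h2.symm.trans h3

/-- injections which preserve the labels -/
theorem lift_inj (hc : Even c) {K : Type} [Finite K] (N : CoxeterMatrix K) (e : K ↪ B)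
    (h : ∀ i j, M (e i) (e j) = N i j) : ∃ j : Sh N c →* Sh M c, Function.Injective j ∧
      ∀ i, j (gen N c i) = gen M c (e i) := by
  obtain rfl : subM M e = N := by
    apply CoxeterMatrix.ext
    ext i j
    exact h i j
  exact ⟨inc M c e, inc_fin M hc e, inc_gen M c e⟩

theorem mem_par_fin (x : Sh M c) : ∃ S : Set B, S.Finite ∧ x ∈ par M c S := by
  induction x using induction with
  | one => exact ⟨∅, Set.finite_empty, one_mem _⟩
  | gen i => exact ⟨{i}, Set.finite_singleton i, Subgroup.subset_closure ⟨i, rfl, rfl⟩⟩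
  | mul x y hx hy =>
    obtain ⟨S, hS, h1⟩ := hx
    obtain ⟨T, hT, h2⟩ := hy
    exact ⟨S ∪ T, hS.union hT, mul_mem
      (Subgroup.closure_mono (Set.image_mono Set.subset_union_left) h1)
      (Subgroup.closure_mono (Set.image_mono Set.subset_union_right) h2)⟩
  | inv x hx =>
    obtain ⟨S, hS, h1⟩ := hx
    exact ⟨S, hS, inv_mem h1⟩

theorem par_mono {S T : Set B} (h : S ⊆ T) : par M c S ≤ par M c T :=
  Subgroup.closure_mono (Set.image_mono h)

end Pool.Agent.X201.SH
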