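import Pool.Agent.X201.SH.Inf
import Pool.Agent.X201.SH.Eppa
import Pool.Agent.X176.FJ.Crit

/-!
Extensions with kernel `Sh M c`.
-/

set_option autoImplicit false

namespace Pool.Agent.X201.SH

open Pool.Agent.Helper741 Pool.Agent.TH107 CoxeterSystem Pool.Agent.X176.FJ
open Pool.Agent.Y110.FJ Pool.Agent.X201.FJ Pool.Agent.X201.AT

variable {B : Type} (M : CoxeterMatrix B) (c : ℕ)

/-- the endomorphism given by a permutation -/
def permS (π : Equiv.Perm B) (hπ : ∀ i j, M (π i) (π j) = M i j) : Sh M c →* Sh M c :=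
  lift (fun i => gen M c (π i)) (fun i j => by rw [← hπ i j]; exact rel _ _) fun _ => gen_pow _

theorem permS_gen (π : Equiv.Perm B) (hπ : ∀ i j, M (π i) (π j) = M i j) (i : B) :
    permS M c π hπ (gen M c i) = gen M c (π i) := lift_gen _ _ _ i

/-- the automorphisms of the matrix -/
def AutM : Subgroup (Equiv.Perm B) where
  carrier := {π | ∀ i j, M (π i) (π j) = M i j}
  one_mem' := fun _ _ => rfl
  mul_mem' := fun {a b} ha hb i j => by
    show M (a (b i)) (a (b j)) = M i j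
    rw [ha, hb]
  inv_mem' := fun {a} ha i j => by
    have h1 : ∀ i, a (a⁻¹ i) = i := fun i => Equiv.apply_symm_apply a i
    rw [← ha (a⁻¹ i) (a⁻¹ j), h1, h1]

variable {M} in
theorem am (π : AutM M) : ∀ i j, M (π.1 i) (π.1 j) = M i j := π.2

/-- the automorphism given by a permutation -/
def autS (π : AutM M) : MulAut (Sh M c) :=
  MonoidHom.toMulEquiv (permS M c π.1 (am π)) (permS M c (π⁻¹).1 (am π⁻¹))
    (by
      apply hom_ext
      intro i
      rw [MonoidHom.comp_apply, permS_gen, permS_gen]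
      show gen M c ((π.1)⁻¹ (π.1 i)) = gen M c i
      congr 1
      exact Equiv.symm_apply_apply π.1 i)
    (by
      apply hom_ext
      intro i
      rw [MonoidHom.comp_apply, permS_gen, permS_gen]
      show gen M c (π.1 ((π.1)⁻¹ i)) = gen M c i
      congr 1
      exact Equiv.apply_symm_apply π.1 i)

theorem autS_apply (π : AutM M) (x : Sh M c) : autS M c π x = permS M c π.1 (am π) x := rfl

/-- the action of the automorphisms of the matrix -/
def actS : AutM M →* MulAut (Sh M c) where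
  toFun := autS M c
  map_one' := by
    apply MulEquiv.toMonoidHom_injective
    apply hom_ext
    intro i
    show permS M c (1 : AutM M).1 (am 1) (gen M c i) = gen M c i
    rw [permS_gen]
    rfl
  map_mul' := fun a b => by
    apply MulEquiv.toMonoidHom_injective
    apply hom_ext
    intro i
    show permS M c (a * b).1 (am (a * b)) (gen M c i) =
      permS M c a.1 (am a) (permS M c b.1 (am b) (gen M c i))
    rw [permS_gen, permS_gen, permS_gen]
    rfl

variable {C : ∀ (G : Type) [Group G], Prop}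

/-- a semidirect product with a finite group -/
theorem c_semi_fin (hC : ClosedE C) {A H : Type} [Group A] [Group H] [Finite H] (φ : H →* MulAut A)
    (hA : C A) : C (A ⋊[φ] H) := by
  let K : Subgroup (A ⋊[φ] H) := (SemidirectProduct.rightHom : A ⋊[φ] H →* H).ker
  have hfin : K.FiniteIndex := Subgroup.finiteIndex_ker _
  refine hC.base.finiteIndex _ K hfin ?_
  have hK : K = (SemidirectProduct.inl : A →* A ⋊[φ] H).range :=
    SemidirectProduct.range_inl_eq_ker_rightHom.symm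
  rw [hK]
  let e := MonoidHom.ofInjective (f := (SemidirectProduct.inl : A →* A ⋊[φ] H))
    SemidirectProduct.inl_injective
  exact hC.base.of_injective _ _ e.symm.toMonoidHom e.symm.injective hA

variable {c}

/-- the group of a finite matrix whose cliques lift to the matrix `M` -/
theorem c_lift (hC : ClosedE C) (hcox : ∀ (B : Type) [Finite B] (M : CoxeterMatrix B), C M.Group)
    (hc : Even c)
    (hK : ∀ X : Set B, X.Finite → (∀ i ∈ X, ∀ j ∈ X, M i j ≠ 0) → C (par M c X))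
    {B' : Type} [Finite B'] (M' : CoxeterMatrix B')
    (h : ∀ K : Set B', (∀ a ∈ K, ∀ b ∈ K, M' a b ≠ 0) → ∃ f : K → B, ∀ a b : K, M (f a) (f b) = M' a b) :
    C (Sh M' c) := by
  refine main_aux hC hcox hc _ B' M' rfl fun K e he => ?_
  obtain ⟨f, hf⟩ := h (Set.range e) (by
    rintro _ ⟨i, rfl⟩ _ ⟨j, rfl⟩
    exact he i j)
  have hfinK : Finite K := Finite.of_injective e e.injective
  let g : K ↪ B := ⟨fun i => f ⟨e i, ⟨i, rfl⟩⟩, by
    intro i j hij
    have h1 := hf ⟨e i, ⟨i, rfl⟩⟩ ⟨e j, ⟨j, rfl⟩⟩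
    have hij' : f ⟨e i, ⟨i, rfl⟩⟩ = f ⟨e j, ⟨j, rfl⟩⟩ := hij
    rw [hij', M.diagonal] at h1
    by_contra hne
    exact M'.off_diagonal _ _ (fun h => hne (e.injective h)) h1.symm⟩
  have hg : ∀ i j, M (g i) (g j) = subM M' e i j := fun i j =>
    hf ⟨e i, ⟨i, rfl⟩⟩ ⟨e j, ⟨j, rfl⟩⟩
  obtain ⟨j, hj, hjg⟩ := lift_inj M hc (subM M' e) g hg
  have hmem : ∀ x, j x ∈ par M c (Set.range g) := by
    intro x
    induction x using induction with
    | one => rw [map_one]; exact one_mem _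
    | gen i => rw [hjg]; exact Subgroup.subset_closure ⟨g i, ⟨i, rfl⟩, rfl⟩
    | mul x y hx hy => rw [map_mul]; exact mul_mem hx hy
    | inv x hx => rw [map_inv]; exact inv_mem hx
  have hCX : C (par M c (Set.range g)) := hK _ (Set.finite_range g) (by
    rintro _ ⟨i, rfl⟩ _ ⟨j, rfl⟩
    rw [hg]
    exact he i j)
  refine hC.base.of_injective _ _ (j.codRestrict _ hmem) ?_ hCX
  intro x y hxy
  exact hj (congrArg Subtype.val hxy)

/-- **extensions with kernel `Sh M c`** -/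
theorem sh_kern (hC : ClosedE C) (hcox : ∀ (B : Type) [Finite B] (M : CoxeterMatrix B), C M.Group)
    (hc : Even c) {Γ : Type} [Group Γ] (N : Subgroup Γ) [N.Normal] (e : Sh M c ≃* N)
    (hact : ∀ γ : Γ, ∃ (π : Equiv.Perm B) (a : Sh M c), (∀ i j, M (π i) (π j) = M i j) ∧
      ∀ i, γ * (e (gen M c i) : Γ) * γ⁻¹ = e (a * gen M c (π i) * a⁻¹))
    (hQ : C (Γ ⧸ N))
    (hK : ∀ X : Set B, X.Finite → (∀ i ∈ X, ∀ j ∈ X, M i j ≠ 0) → C (par M c X)) : C Γ := by
  classical
  refine crit C hC Γ N hQ fun γ E hE hEN => ?_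
  obtain ⟨π, a, hπ, hγ⟩ := hact γ
  let ε : Sh M c →* Γ := N.subtype.comp e.toMonoidHom
  have hε : Function.Injective ε := fun x y hxy => e.injective (Subtype.ext hxy)
  have hγ' : ∀ u : Sh M c, γ * ε u * γ⁻¹ = ε (a * permS M c π hπ u * a⁻¹) := by
    intro u
    have h1 : (MulAut.conj γ).toMonoidHom.comp ε =
        ε.comp ((MulAut.conj a).toMonoidHom.comp (permS M c π hπ)) := by
      apply hom_ext
      intro i
      show γ * (e (gen M c i) : Γ) * γ⁻¹ = ε (a * permS M c π hπ (gen M c i) * a⁻¹)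
      rw [permS_gen, hγ]
      rfl
    exact DFunLike.congr_fun h1 u
  choose S hS hmem using mem_par_fin M (c := c)
  let E0 : Set (Sh M c) := ε ⁻¹' E
  have hE0 : E0.Finite := hE.preimage hε.injOn
  let S0 : Set B := S a ∪ ⋃ u ∈ E0, S u
  have hS0 : S0.Finite := (hS a).union (hE0.biUnion fun u _ => hS u)
  have haS : a ∈ par M c S0 := par_mono M Set.subset_union_left (hmem a)
  have huS : ∀ u ∈ E0, u ∈ par M c S0 := fun u hu =>
    par_mono M (subset_trans (Set.subset_biUnion_of_mem (u := S) hu) Set.subset_union_right) (hmem u)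
  let T : Set B := S0 ∪ π '' S0
  have hT : T.Finite := hS0.union (hS0.image _)
  have hTf : Finite T := hT.to_subtype
  obtain ⟨B', hB', M', ι, τ, h1, h2, h3, h4⟩ := eppa M π hπ T hT
  obtain ⟨j, hj, hjg⟩ := lift_inj M' hc (resM M T) ι h1
  let ιT : Sh (resM M T) c →* Sh M c := inc M c (Function.Embedding.subtype (· ∈ T))
  have hιT : Function.Injective ιT := inc_inj_fin M hc hT
  let R : Subgroup (Sh M c) := ιT.range
  let eT : Sh (resM M T) c ≃* R := MonoidHom.ofInjective hιT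
  let F : R →* Sh M' c := j.comp eT.symm.toMonoidHom
  have hF : Function.Injective F := hj.comp eT.symm.injective
  have hFgen : ∀ (s : B) (hs : s ∈ T) (hs' : gen M c s ∈ R), F ⟨gen M c s, hs'⟩ = gen M' c (ι ⟨s, hs⟩) := by
    intro s hs hs'
    have e1 : eT.symm ⟨gen M c s, hs'⟩ = gen (resM M T) c ⟨s, hs⟩ := by
      rw [MulEquiv.symm_apply_eq]
      apply Subtype.ext
      exact (inc_gen M c (Function.Embedding.subtype (· ∈ T)) ⟨s, hs⟩).symm
    show j (eT.symm ⟨gen M c s, hs'⟩) = _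
    rw [e1, hjg]
  have hgR : ∀ s ∈ T, gen M c s ∈ R := fun s hs =>
    ⟨gen (resM M T) c ⟨s, hs⟩, inc_gen M c (Function.Embedding.subtype (· ∈ T)) ⟨s, hs⟩⟩
  have key : ∀ x ∈ par M c S0, ∃ (hx : x ∈ R) (hx' : permS M c π hπ x ∈ R),
      F ⟨permS M c π hπ x, hx'⟩ = permS M' c τ h2 (F ⟨x, hx⟩) := by
    intro x hx
    unfold par at hx
    induction hx using Subgroup.closure_induction with
    | mem x hx =>
      obtain ⟨s, hs, rfl⟩ := hx
      have hsT : s ∈ T := Or.inl hs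
      have hsT' : π s ∈ T := Or.inr ⟨s, hs, rfl⟩
      have h5 : permS M c π hπ (gen M c s) ∈ R := by
        rw [permS_gen]
        exact hgR _ hsT'
      refine ⟨hgR s hsT, h5, ?_⟩
      have h6 : (⟨permS M c π hπ (gen M c s), h5⟩ : R) = ⟨gen M c (π s), hgR _ hsT'⟩ :=
        Subtype.ext (permS_gen M c π hπ s)
      rw [h6, hFgen s hsT, hFgen _ hsT', permS_gen, h3 ⟨s, hsT⟩ hsT']
    | one =>
      refine ⟨one_mem _, by rw [map_one]; exact one_mem _, ?_⟩
      have h6 : (⟨permS M c π hπ 1, by rw [map_one]; exact one_mem _⟩ : R) = 1 := Subtype.ext (map_one _)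
      have h7 : (⟨1, one_mem _⟩ : R) = 1 := rfl
      rw [h6, h7, map_one, map_one]
    | mul x y _ _ hx hy =>
      obtain ⟨a1, a2, a3⟩ := hx
      obtain ⟨b1, b2, b3⟩ := hy
      refine ⟨mul_mem a1 b1, by rw [map_mul]; exact mul_mem a2 b2, ?_⟩
      have h6 : (⟨permS M c π hπ (x * y), by rw [map_mul]; exact mul_mem a2 b2⟩ : R) =
        ⟨permS M c π hπ x, a2⟩ * ⟨permS M c π hπ y, b2⟩ := Subtype.ext (map_mul _ _ _)
      have h7 : (⟨x * y, mul_mem a1 b1⟩ : R) = ⟨x, a1⟩ * ⟨y, b1⟩ := rfl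
      rw [h6, h7, map_mul, map_mul, a3, b3, map_mul]
    | inv x _ hx =>
      obtain ⟨a1, a2, a3⟩ := hx
      refine ⟨inv_mem a1, by rw [map_inv]; exact inv_mem a2, ?_⟩
      have h6 : (⟨permS M c π hπ x⁻¹, by rw [map_inv]; exact inv_mem a2⟩ : R) =
        ⟨permS M c π hπ x, a2⟩⁻¹ := Subtype.ext (map_inv _ _)
      have h7 : (⟨x⁻¹, inv_mem a1⟩ : R) = ⟨x, a1⟩⁻¹ := rfl
      rw [h6, h7, map_inv, map_inv, a3, map_inv]
  obtain ⟨haR, -, -⟩ := key a haS
  let τ' : AutM M' := ⟨τ, h2⟩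
  -- the group
  have hCP : C (Sh M' c ⋊[actS M' c] AutM M') := by
    have : Finite (Equiv.Perm B') := inferInstance
    have : Finite (AutM M') := inferInstance
    exact c_semi_fin hC _ (c_lift M hC hcox hc hK M' h4)
  have hle : Subgroup.closure (E ∪ (fun x => γ * x * γ⁻¹) '' E) ≤ R.map ε := by
    rw [Subgroup.closure_le]
    rintro x (hx | ⟨y, hy, rfl⟩)
    · have hx' : x = ε (e.symm ⟨x, hEN hx⟩) := by
        show x = ((e (e.symm ⟨x, hEN hx⟩) : N) : Γ)
        rw [MulEquiv.apply_symm_apply]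
      have hu : e.symm ⟨x, hEN hx⟩ ∈ E0 := by
        show ε _ ∈ E
        rw [← hx']; exact hx
      exact ⟨_, (key _ (huS _ hu)).1, hx'.symm⟩
    · have hy' : y = ε (e.symm ⟨y, hEN hy⟩) := by
        show y = ((e (e.symm ⟨y, hEN hy⟩) : N) : Γ)
        rw [MulEquiv.apply_symm_apply]
      have hu : e.symm ⟨y, hEN hy⟩ ∈ E0 := by
        show ε _ ∈ E
        rw [← hy']; exact hy
      refine ⟨a * permS M c π hπ (e.symm ⟨y, hEN hy⟩) * a⁻¹, ?_, ?_⟩
      · exact mul_mem (mul_mem haR (key _ (huS _ hu)).2.1) (inv_mem haR)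
      · rw [← hγ', ← hy']
  let eM : R ≃* R.map ε := R.equivMapOfInjective _ hε
  refine ⟨Sh M' c ⋊[actS M' c] AutM M', inferInstance,
    (SemidirectProduct.inl.comp (F.comp eM.symm.toMonoidHom)).comp (Subgroup.inclusion hle),
    SemidirectProduct.inl (F ⟨a, haR⟩) * SemidirectProduct.inr τ', hCP, ?_, ?_⟩
  · exact (SemidirectProduct.inl_injective.comp (hF.comp eM.symm.injective)).comp
      (Subgroup.inclusion_injective hle)
  · rintro ⟨x, hx'⟩ ⟨y, hy'⟩ hx hy
    have hxE : x ∈ E := hx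
    have hxe : x = ε (e.symm ⟨x, hEN hxE⟩) := by
      show x = ((e (e.symm ⟨x, hEN hxE⟩) : N) : Γ)
      rw [MulEquiv.apply_symm_apply]
    have hu : e.symm ⟨x, hEN hxE⟩ ∈ E0 := by
      show ε _ ∈ E
      rw [← hxe]; exact hxE
    obtain ⟨g1, g2, g3⟩ := key _ (huS _ hu)
    have e1 : eM.symm ⟨x, hle hx'⟩ = ⟨e.symm ⟨x, hEN hxE⟩, g1⟩ := by
      rw [MulEquiv.symm_apply_eq]
      exact Subtype.ext hxe
    have e2 : eM.symm ⟨y, hle hy'⟩ = ⟨a, haR⟩ * ⟨permS M c π hπ (e.symm ⟨x, hEN hxE⟩), g2⟩ *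
        (⟨a, haR⟩)⁻¹ := by
      rw [MulEquiv.symm_apply_eq]
      apply Subtype.ext
      have hy1 : y = γ * x * γ⁻¹ := hy
      show y = ε (a * permS M c π hπ (e.symm ⟨x, hEN hxE⟩) * a⁻¹)
      rw [hy1, ← hγ', ← hxe]
    show SemidirectProduct.inl (F (eM.symm ⟨y, hle hy'⟩)) =
      (SemidirectProduct.inl (F ⟨a, haR⟩) * SemidirectProduct.inr τ') *
      SemidirectProduct.inl (F (eM.symm ⟨x, hle hx'⟩)) *
      (SemidirectProduct.inl (F ⟨a, haR⟩) * SemidirectProduct.inr τ')⁻¹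
    have hFy : F (⟨a, haR⟩ * ⟨permS M c π hπ (e.symm ⟨x, hEN hxE⟩), g2⟩ * (⟨a, haR⟩)⁻¹) =
        F ⟨a, haR⟩ * permS M' c τ h2 (F ⟨e.symm ⟨x, hEN hxE⟩, g1⟩) * (F ⟨a, haR⟩)⁻¹ := by
      rw [map_mul, map_mul, g3, map_inv]
    rw [e1, e2, hFy]
    have h8 := SemidirectProduct.inl_aut (φ := actS M' c) τ' (F ⟨e.symm ⟨x, hEN hxE⟩, g1⟩)
    have h9 : actS M' c τ' (F ⟨e.symm ⟨x, hEN hxE⟩, g1⟩) =
      permS M' c τ h2 (F ⟨e.symm ⟨x, hEN hxE⟩, g1⟩) := rfl
    rw [h9] at h8
    rw [map_mul, map_mul, h8, map_inv, map_inv]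
    simp only [mul_inv_rev, mul_assoc]

end Pool.Agent.X201.SH
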