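import Pool.Agent.X201.SH.Phi
import Pool.Agent.X201.FJ.AmgTree

/-!
The groups `Sh M c`: reduction to the standard parabolic subgroups with finite labels.
-/

set_option autoImplicit false

namespace Pool.Agent.X201.SH

open Pool.Agent.Helper741 Pool.Agent.TH107 CoxeterSystem Pool.Agent.X176.FJ
open Pool.Agent.Y110.FJ Pool.Agent.X201.FJ Pool.Agent.X201.AT

variable {C : ∀ (G : Type) [Group G], Prop}

/-- the subgroup generated by the generators in `X` -/
def par {B : Type} (M : CoxeterMatrix B) (c : ℕ) (X : Set B) : Subgroup (Sh M c) :=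
  Subgroup.closure (gen M c '' X)

theorem map_inc {B K : Type} (M : CoxeterMatrix B) (c : ℕ) (e : K ↪ B) (Y : Set K) :
    (par (subM M e) c Y).map (inc M c e) = par M c (e '' Y) := by
  unfold par
  rw [MonoidHom.map_closure]
  congr 1
  ext x
  constructor
  · rintro ⟨_, ⟨i, hi, rfl⟩, rfl⟩
    exact ⟨e i, ⟨i, hi, rfl⟩, (inc_gen M c e i).symm⟩
  · rintro ⟨_, ⟨i, hi, rfl⟩, rfl⟩
    exact ⟨gen _ c i, ⟨i, hi, rfl⟩, inc_gen M c e i⟩

theorem par_univ {B : Type} (M : CoxeterMatrix B) (c : ℕ) : par M c Set.univ = ⊤ := by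
  unfold par
  rw [Set.image_univ, closure_range_gen]

theorem range_inc {B K : Type} (M : CoxeterMatrix B) (c : ℕ) (e : K ↪ B) :
    (inc M c e).range = par M c (Set.range e) := by
  rw [MonoidHom.range_eq_map, ← par_univ, map_inc, Set.image_univ]

theorem range_inc_set {B : Type} (M : CoxeterMatrix B) (c : ℕ) (X : Set B) :
    (inc M c (Function.Embedding.subtype (· ∈ X))).range = par M c X := by
  rw [range_inc]
  congr 1
  exact Subtype.range_coe

theorem inc_injective {B : Type} [Finite B] (M : CoxeterMatrix B) {c : ℕ} (hc : Even c) (X : Set B) :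
    Function.Injective (inc M c (Function.Embedding.subtype (· ∈ X))) := by
  obtain ⟨P, hP, f, -, hf⟩ := detect M hc X
  intro u v huv
  apply hf
  show f _ = f _
  rw [huv]

theorem inc_injective' {B K : Type} [Finite B] (M : CoxeterMatrix B) {c : ℕ} (hc : Even c)
    (e : K ↪ B) : Function.Injective (inc M c e) := by
  let X : Set B := Set.range e
  let M' := subM M (Function.Embedding.subtype (· ∈ X))
  let F : K → Sh M' c := fun i => gen M' c ⟨e i, ⟨i, rfl⟩⟩
  let j : Sh (subM M e) c →* Sh M' c := lift F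
    (fun a b => rel (M := M') ⟨e a, ⟨a, rfl⟩⟩ ⟨e b, ⟨b, rfl⟩⟩) fun a => gen_pow _
  let k : X → K := fun x => x.2.choose
  have hk : ∀ x : X, e (k x) = x := fun x => x.2.choose_spec
  let r : Sh M' c →* Sh (subM M e) c := lift (fun x => gen (subM M e) c (k x)) (fun x y => by
    have h1 : M' x y = subM M e (k x) (k y) := by
      show M (x : B) (y : B) = M (e (k x)) (e (k y))
      rw [hk, hk]
    rw [h1]
    exact rel _ _) fun x => gen_pow _
  have hrj : r.comp j = MonoidHom.id _ := by
    apply hom_ext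
    intro i
    have h1 : j (gen _ c i) = F i := lift_gen _ _ _ i
    have h2 : r (F i) = gen (subM M e) c (k ⟨e i, ⟨i, rfl⟩⟩) := lift_gen _ _ _ _
    have h3 : k ⟨e i, ⟨i, rfl⟩⟩ = i := e.injective (hk ⟨e i, ⟨i, rfl⟩⟩)
    rw [MonoidHom.comp_apply, h1, h2, h3]
    rfl
  have hij : (inc M c (Function.Embedding.subtype (· ∈ X))).comp j = inc M c e := by
    apply hom_ext
    intro i
    have h1 : j (gen _ c i) = F i := lift_gen _ _ _ i
    rw [MonoidHom.comp_apply, h1, inc_gen, inc_gen]
    rfl
  rw [← hij]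
  intro u v huv
  have h1 : j u = j v := inc_injective M hc X huv
  have h2 := DFunLike.congr_fun hrj u
  have h3 := DFunLike.congr_fun hrj v
  rw [MonoidHom.comp_apply, h1] at h2
  exact h2.symm.trans h3

theorem c_par (hC : ClosedE C) {B : Type} [Finite B] (M : CoxeterMatrix B) {c : ℕ} (hc : Even c)
    (X : Set B) :
    C (par M c X) ↔ C (Sh (subM M (Function.Embedding.subtype (· ∈ X))) c) := by
  rw [← range_inc_set]
  let e := MonoidHom.ofInjective (inc_injective M hc X)
  exact ⟨fun h => hC.base.of_injective _ _ e.toMonoidHom e.injective h,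
    fun h => hC.base.of_injective _ _ e.symm.toMonoidHom e.symm.injective h⟩

/-- the amalgam decomposition -/
theorem sh_amg {B : Type} (M : CoxeterMatrix B) (c : ℕ) {i j : B} (hij : i ≠ j) (h0 : M i j = 0) :
    Amg (par M c {s | s ≠ i}) (par M c {s | s ≠ j}) (par M c {s | s ≠ i ∧ s ≠ j}) := by
  classical
  have hi : ∀ s : B, s ≠ i → gen M c s ∈ par M c {s | s ≠ i} := fun s hs =>
    Subgroup.subset_closure ⟨s, hs, rfl⟩
  have hj : ∀ s : B, s ≠ j → gen M c s ∈ par M c {s | s ≠ j} := fun s hs =>
    Subgroup.subset_closure ⟨s, hs, rfl⟩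
  refine ⟨?_, ?_, ?_, ?_⟩
  · exact Subgroup.closure_mono (Set.image_mono fun s hs => hs.1)
  · exact Subgroup.closure_mono (Set.image_mono fun s hs => hs.2)
  · rw [eq_top_iff, ← closure_range_gen, Subgroup.closure_le]
    rintro _ ⟨s, rfl⟩
    by_cases hs : s = i
    · exact Subgroup.mem_sup_right (hj s (hs.trans_ne hij))
    · exact Subgroup.mem_sup_left (hi s hs)
  · intro H _ f g hfg
    let F : B → H := fun s => if hs : s = i then g ⟨gen M c s, hj s (hs.trans_ne hij)⟩ else
      f ⟨gen M c s, hi s hs⟩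
    have F1 : ∀ (s : B) (hs : s ≠ i), F s = f ⟨gen M c s, hi s hs⟩ := fun s hs => dif_neg hs
    have F2 : ∀ (s : B) (hs : s ≠ j), F s = g ⟨gen M c s, hj s hs⟩ := by
      intro s hs
      by_cases h : s = i
      · exact dif_pos h
      · rw [F1 s h]
        exact hfg _ (Subgroup.subset_closure ⟨s, ⟨h, hs⟩, rfl⟩)
    have rel1 : ∀ s t : B, s ≠ i → t ≠ i → alt (F s) (F t) (M s t) = alt (F t) (F s) (M s t) := by
      intro s t hs ht
      rw [F1 s hs, F1 t ht, ← map_alt, ← map_alt]
      congr 1
      apply Subtype.ext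
      have := rel (M := M) (c := c) s t
      rw [← Subgroup.coe_subtype, map_alt, map_alt]
      exact this
    have rel2 : ∀ s t : B, s ≠ j → t ≠ j → alt (F s) (F t) (M s t) = alt (F t) (F s) (M s t) := by
      intro s t hs ht
      rw [F2 s hs, F2 t ht, ← map_alt, ← map_alt]
      congr 1
      apply Subtype.ext
      have := rel (M := M) (c := c) s t
      rw [← Subgroup.coe_subtype, map_alt, map_alt]
      exact this
    have relF : ∀ s t : B, alt (F s) (F t) (M s t) = alt (F t) (F s) (M s t) := by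
      intro s t
      by_cases hs : s = i
      · by_cases ht : t = j
        · rw [hs, ht, h0, alt_zero, alt_zero]
        · exact rel2 s t (hs.trans_ne hij) ht
      · by_cases ht : t = i
        · by_cases hs' : s = j
          · rw [ht, hs', M.symmetric, h0, alt_zero, alt_zero]
          · exact rel2 s t hs' (ht.trans_ne hij)
        · exact rel1 s t hs ht
    have powF : ∀ s : B, F s ^ c = 1 := by
      intro s
      by_cases hs : s = i
      · rw [F2 s (hs.trans_ne hij), ← map_pow]
        have h1 : (⟨gen M c s, hj s (hs.trans_ne hij)⟩ : par M c {s | s ≠ j}) ^ c = 1 :=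
          Subtype.ext (gen_pow s)
        rw [h1, map_one]
      · rw [F1 s hs, ← map_pow]
        have h1 : (⟨gen M c s, hi s hs⟩ : par M c {s | s ≠ i}) ^ c = 1 := Subtype.ext (gen_pow s)
        rw [h1, map_one]
    let h : Sh M c →* H := lift F relF powF
    have hF : ∀ s, h (gen M c s) = F s := fun s => lift_gen _ _ _ s
    have main : ∀ (X : Set B) (u : par M c X →* H), (∀ (s : B) (hs : s ∈ X),
        F s = u ⟨gen M c s, Subgroup.subset_closure ⟨s, hs, rfl⟩⟩) → ∀ a : par M c X, h a = u a := by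
      intro X u hu a
      have h1 : h.comp (par M c X).subtype = u := by
        apply MonoidHom.eq_of_eqOn_dense (s := Subtype.val ⁻¹' (gen M c '' X))
        · exact Subgroup.closure_closure_coe_preimage
        · rintro ⟨_, _⟩ ⟨s, hs, rfl⟩
          exact (hF s).trans (hu s hs)
      exact DFunLike.congr_fun h1 a
    exact ⟨h, main _ f fun s hs => F1 s hs, main _ g fun s hs => F2 s hs⟩

/-- the induction -/
theorem main_aux (hC : ClosedE C) (hcox : ∀ (B : Type) [Finite B] (M : CoxeterMatrix B), C M.Group)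
    {c : ℕ} (hc : Even c)
    (n : ℕ) : ∀ (B : Type) [Finite B] (M : CoxeterMatrix B), Nat.card B = n →
      (∀ (K : Type) (e : K ↪ B), (∀ i j, M (e i) (e j) ≠ 0) → C (Sh (subM M e) c)) → C (Sh M c) := by
  induction n using Nat.strong_induction_on with
  | _ n ih =>
  intro B _ M hn hK
  by_cases hcl : ∀ i j, M i j ≠ 0
  · exact hK B (Function.Embedding.refl B) hcl
  push Not at hcl
  obtain ⟨i, j, h0⟩ := hcl
  have hij : i ≠ j := by
    rintro rfl
    rw [M.diagonal] at h0
    exact one_ne_zero h0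
  have step : ∀ (X : Set B), X ≠ Set.univ → C (Sh (subM M (Function.Embedding.subtype (· ∈ X))) c) := by
    intro X hX
    have hlt : Nat.card X < n := by
      rw [← hn, Nat.card_coe_set_eq]
      exact Set.ncard_lt_card hX
    exact ih _ hlt X (subM M (Function.Embedding.subtype (· ∈ X))) rfl fun K e he =>
      hK K (e.trans (Function.Embedding.subtype (· ∈ X))) he
  have hi : ({s | s ≠ i} : Set B) ≠ Set.univ := by
    intro h
    have : i ∈ ({s | s ≠ i} : Set B) := by rw [h]; trivial
    exact this rfl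
  have hj : ({s | s ≠ j} : Set B) ≠ Set.univ := by
    intro h
    have : j ∈ ({s | s ≠ j} : Set B) := by rw [h]; trivial
    exact this rfl
  have hk : ({s | s ≠ i ∧ s ≠ j} : Set B) ≠ Set.univ := by
    intro h
    have : i ∈ ({s | s ≠ i ∧ s ≠ j} : Set B) := by rw [h]; trivial
    exact this.1 rfl
  obtain ⟨P, hP, f, hf, hinj⟩ := detect M hc {s | s ≠ i ∧ s ≠ j}
  refine (amg_edge hC (sh_amg M c hij h0) f (hf hC (hcox B M) (step _ hk)) ?_).2
    ⟨(c_par hC M hc _).2 (step _ hi), (c_par hC M hc _).2 (step _ hj)⟩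
  intro k hkm hfk
  rw [← range_inc_set] at hkm
  obtain ⟨u, rfl⟩ := hkm
  have h1 : (f.comp (inc M c (Function.Embedding.subtype (· ∈ {s | s ≠ i ∧ s ≠ j})))) u = 1 := hfk
  rw [← map_one (f.comp (inc M c (Function.Embedding.subtype (· ∈ {s | s ≠ i ∧ s ≠ j}))))] at h1
  rw [hinj h1, map_one]

end Pool.Agent.X201.SH
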