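import Pool.Agent.X201.SH.Basic

/-!
The homomorphism to the wreath type product for the groups `Sh M c` with `c` even.
-/

set_option autoImplicit false

namespace Pool.Agent.X201.SH

open Pool.Agent.Helper741 Pool.Agent.TH107 CoxeterSystem Pool.Agent.X176.FJ
open Pool.Agent.Y110.FJ Pool.Agent.X201.AT

/-- the homomorphism given by an injection -/
def inc {K B : Type} (M : CoxeterMatrix B) (c : ℕ) (e : K ↪ B) : Sh (subM M e) c →* Sh M c :=
  lift (fun i => gen M c (e i)) (fun i j => rel (e i) (e j)) fun i => gen_pow (e i)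

@[simp] theorem inc_gen {K B : Type} (M : CoxeterMatrix B) (c : ℕ) (e : K ↪ B) (i : K) :
    inc M c e (gen (subM M e) c i) = gen M c (e i) := lift_gen _ _ _ _

section

variable {B : Type} {M : CoxeterMatrix B} [Fintype B] [DecidableEq B]
variable {W : Type} [Group W] (cs : CoxeterSystem M W) {X : Set B}
variable {H : Type} [Group H] (g : X → H)

theorem lab_pow {c : ℕ} (hg : ∀ x, g x ^ c = 1) (i : B) (y : W ⧸ WX cs X) : lab g i y ^ c = 1 := by
  unfold lab
  split_ifs with h
  · exact hg _
  · exact one_pow c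

theorem pow_of_right {Y Q : Type} [Group Q] [MulAction Q Y]
    (z : FR Y H ⋊[frAct Y (1 : Q →* MulAut H)] Q) (hz : z.right = 1) (k : ℕ) :
    (z ^ k).right = 1 ∧ ∀ y, (z ^ k).left.f y = (z.left.f y) ^ k := by
  induction k with
  | zero => exact ⟨by rw [pow_zero]; rfl, fun y => by rw [pow_zero, pow_zero]; rfl⟩
  | succ k ih =>
    obtain ⟨h1, h2⟩ := ih
    rw [pow_succ]
    constructor
    · rw [SemidirectProduct.mul_right, h1, hz, mul_one]
    · intro y
      show (z ^ k).left.f y * z.left.f ((z ^ k).right⁻¹ • y) = _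
      rw [h1, h2, inv_one, one_smul, pow_succ]

theorem phiGen_pow {c : ℕ} (hc : Even c) (hg : ∀ x, g x ^ c = 1) (i : B) : phiGen cs g i ^ c = 1 := by
  obtain ⟨k, rfl⟩ := hc
  rw [← two_mul, pow_mul, pow_two]
  have hr : (phiGen cs g i * phiGen cs g i).right = 1 := cs.simple_mul_simple_self i
  obtain ⟨h1, h2⟩ := pow_of_right _ hr k
  apply SemidirectProduct.ext
  · apply FR.ext
    funext y
    rw [h2]
    show (lab g i y * lab g i ((cs.simple i)⁻¹ • y)) ^ k = 1
    rw [cs.inv_simple]
    by_cases hy : cs.simple i • y = y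
    · rw [hy, ← pow_two, ← pow_mul, two_mul]
      exact lab_pow cs g hg i y
    · have h3 : cs.simple i • (cs.simple i • y) ≠ cs.simple i • y := fun h => hy (smul_left_cancel _ h)
      rw [lab_one' g hy, lab_one' g h3, one_mul, one_pow]
  · exact h1

/-- the homomorphism -/
noncomputable def phi {c : ℕ} (hc : Even c) (hg : ∀ x x' : X, M (x : B) x' ≠ 0 →
      alt (g x) (g x') (M (x : B) x') = alt (g x') (g x) (M (x : B) x')) (hg' : ∀ x, g x ^ c = 1) :
    Sh M c →* FR (W ⧸ WX cs X) H ⋊[frAct (W ⧸ WX cs X) (1 : W →* MulAut H)] W :=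
  lift (phiGen cs g) (phi_rel cs g hg) (phiGen_pow cs g hc hg')

/-- the homomorphism is injective on the standard parabolic subgroup -/
theorem phi_inc {c : ℕ} (hc : Even c) (v : Sh (subM M (Function.Embedding.subtype (· ∈ X))) c) :
    let Φ := phi cs (X := X) (H := Sh (subM M (Function.Embedding.subtype (· ∈ X))) c)
      (fun x => gen _ c x) hc (fun x x' _ => rel x x') (fun x => gen_pow x)
    (Φ (inc M c _ v)).left.f (y0 cs) = v ∧ (Φ (inc M c _ v)).right • y0 cs (X := X) = y0 cs := by
  intro Φ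
  induction v using induction with
  | one => rw [map_one, map_one]; exact ⟨rfl, one_smul _ _⟩
  | gen x =>
    have h1 : Φ (inc M c _ (gen (subM M (Function.Embedding.subtype (· ∈ X))) c x)) =
        phiGen cs (fun x : X => gen (subM M (Function.Embedding.subtype (· ∈ X))) c x) (x : B) := by
      rw [inc_gen]
      exact lift_gen _ _ _ _
    rw [h1]
    exact ⟨lab_y0 cs _ x, fix_y0 cs x⟩
  | mul u v hu hv =>
    obtain ⟨hu1, hu2⟩ := hu
    obtain ⟨hv1, hv2⟩ := hv
    rw [map_mul, map_mul]
    constructor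
    · show (Φ (inc M c _ u)).left.f (y0 cs) * (Φ (inc M c _ v)).left.f
        ((Φ (inc M c _ u)).right⁻¹ • y0 cs) = u * v
      have h3 : (Φ (inc M c _ u)).right⁻¹ • y0 cs (X := X) = y0 cs := by
        rw [inv_smul_eq_iff, hu2]
      rw [h3, hu1, hv1]
    · rw [SemidirectProduct.mul_right, mul_smul, hv2, hu2]
  | inv u hu =>
    obtain ⟨hu1, hu2⟩ := hu
    rw [map_inv, map_inv]
    constructor
    · show ((Φ (inc M c _ u)).left.f (((Φ (inc M c _ u)).right⁻¹)⁻¹ • y0 cs))⁻¹ = u⁻¹
      rw [inv_inv, hu2, hu1]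
    · rw [SemidirectProduct.inv_right, inv_smul_eq_iff, hu2]

end

/-- **standard parabolic subgroups**: detection by a homomorphism to a group in the class -/
theorem detect {B : Type} [Finite B] (M : CoxeterMatrix B) {c : ℕ} (hc : Even c) (X : Set B) :
    ∃ (P : Type) (_ : Group P) (f : Sh M c →* P),
      (∀ {C : ∀ (G : Type) [Group G], Prop}, ClosedE C → C M.Group →
        C (Sh (subM M (Function.Embedding.subtype (· ∈ X))) c) → C P) ∧
      Function.Injective (f.comp (inc M c (Function.Embedding.subtype (· ∈ X)))) := by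
  classical
  have := Fintype.ofFinite B
  let cs := M.toCoxeterSystem
  let Φ := phi cs (X := X) (H := Sh (subM M (Function.Embedding.subtype (· ∈ X))) c)
      (fun x => gen _ c x) hc (fun x x' _ => rel x x') (fun x => gen_pow x)
  refine ⟨_, inferInstance, Φ, fun hC hW hA => c_fr hC hA hW, ?_⟩
  intro u v huv
  have h1 : Φ (inc M c _ u) = Φ (inc M c _ v) := huv
  rw [← (phi_inc cs (X := X) hc u).1, ← (phi_inc cs (X := X) hc v).1]
  show (Φ (inc M c _ u)).left.f (y0 cs) = (Φ (inc M c _ v)).left.f (y0 cs)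
  rw [h1]

end Pool.Agent.X201.SH
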